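import Pool.Agent.H54.GC.Tm
import Pool.Agent.H63.RK.Zorn
import Pool.Agent.H63.RK.AbCyc

/-!
# The kernel theorem for classes with the transfer property
-/

set_option autoImplicit false

namespace Pool.Agent.H38.GN

open Pool.Agent.H98.FJ Pool.Agent.H93.TR Pool.Agent.H54.GC Pool.Agent.H76.GT Pool.Agent.H63.RK
open Pool.Agent.H37.MG

variable {C : (G : Type) → [Group G] → Prop}

/-- acylindrical actions on trees -/
theorem acyl_of_transfer (hC : Inherits C) (hT : Transfer C) : AcylTrees C := by
  intro G V _ _ _ X hX hadj _ hk hv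
  obtain ⟨k, hk⟩ := hk
  refine Pool.Agent.H92.CZ.comm_main hC hT G fun K hK => ?_
  have hfx : ∀ B : Subgroup K, FM X k B → ∀ b ∈ B, b = 1 := by
    rintro B ⟨v, w, hvw, hB⟩ b hb
    exact Subtype.ext (hk (b : G) v w hvw (hB b hb).1 (hB b hb).2)
  have hfin : ∀ B : Subgroup K, FM X k B → (B : Set K) = {1} := by
    intro B hB
    ext b
    exact ⟨fun hb => hfx B hB b hb, fun hb => by rw [Set.mem_singleton_iff.1 hb]; exact B.one_mem⟩
  refine ⟨V, inferInstance, X, 1, k, 1, 1, tree_median hX, fun g a b h => hadj (g : G) a b h, tree_no_cube hX, ?_, ?_, ?_, ?_⟩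
  · intro v
    let f : MulAction.stabilizer K v →* MulAction.stabilizer G v :=
      { toFun := fun g => ⟨(g.1 : G), g.2⟩
        map_one' := rfl
        map_mul' := fun _ _ => rfl }
    refine hC.of_injective f ?_ (hv v)
    intro x y hxy
    exact Subtype.ext (Subtype.ext (congrArg (fun z : MulAction.stabilizer G v => (z : G)) hxy))
  · intro B hB _
    rw [hfin B hB, Set.encard_singleton]
    exact le_rfl
  · intro B hB hi
    rw [hfin B hB] at hi
    exact (hi (Set.finite_singleton 1)).elim
  · intro B hB _ hi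
    rw [hfin (B 0) (hB 0)] at hi
    exact (hi (Set.finite_singleton 1)).elim

/-- **The kernel theorem**: hyper-(locally nilpotent or locally finite) kernels -/
theorem radical (hC : Inherits C) (hE : Extension C) (hT : Transfer C)
    (hS : ∀ (G : Type) [Group G], Group.IsSolvable G → C G) {G : Type} [Group G] (K : Subgroup G) [K.Normal] (hQ : C (G ⧸ K))
    (hK : ∀ (M : Subgroup G) [M.Normal], M < K → ∃ L : Subgroup (G ⧸ M), L.Normal ∧ L ≠ ⊥ ∧
      L ≤ K.map (QuotientGroup.mk' M) ∧ (LocNil L ∨ LocFin L)) : C G :=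
  Pool.Agent.H63.RK.main hC hE (fun G _ h => hS G h) (acyl_of_transfer hC hT) K hQ hK

end Pool.Agent.H38.GN
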