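import Pool.Agent.H38.GN.Ker
import Pool.Agent.H54.IX.Hnn

/-!
# HNN extensions of finite groups and of nilpotent groups
-/

set_option autoImplicit false

namespace Pool.Agent.H38.GN

open Pool.Agent.H98.FJ Pool.Agent.H93.TR Pool.Agent.H54.IX

variable {C : (G : Type) → [Group G] → Prop}

/-- the right regular representation -/
def rrep (A : Type) [Group A] : A →* Equiv.Perm A where
  toFun a := Equiv.mulRight a⁻¹
  map_one' := by
    ext x
    simp
  map_mul' a b := by
    ext x
    simp [mul_assoc]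

theorem rrep_apply {A : Type} [Group A] (a x : A) : rrep A a x = x * a⁻¹ := rfl

theorem exists_coset_equiv {A : Type} [Group A] (B : Subgroup A) :
    ∃ e : (A ⧸ B) × B ≃ A, ∀ (q : A ⧸ B) (b : B), e (q, b) = q.out * (b : A) := by
  refine ⟨Equiv.ofBijective (fun x => x.1.out * (x.2 : A)) ⟨?_, ?_⟩, fun q b => rfl⟩
  · rintro ⟨q, b⟩ ⟨q', b'⟩ h
    have h' : q.out * (b : A) = q'.out * (b' : A) := h
    have h1 : q = q' := by
      rw [← QuotientGroup.out_eq' q, ← QuotientGroup.out_eq' q', QuotientGroup.eq]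
      have h2 : (q.out)⁻¹ * q'.out = (b : A) * (b' : A)⁻¹ := by
        rw [inv_mul_eq_iff_eq_mul, ← mul_assoc, h', mul_inv_cancel_right]
      rw [h2]
      exact B.mul_mem b.2 (B.inv_mem b'.2)
    subst h1
    have h3 := mul_left_cancel h'
    rw [Subtype.ext h3]
  · intro x
    have h1 : ((x : A ⧸ B).out)⁻¹ * x ∈ B := by
      rw [← QuotientGroup.eq]
      exact QuotientGroup.out_eq' _
    exact ⟨((x : A ⧸ B), ⟨_, h1⟩), mul_inv_cancel_left _ _⟩

theorem exists_perm {A : Type} [Group A] [Finite A] (B B' : Subgroup A) (φ : B ≃* B') :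
    ∃ τ : Equiv.Perm A, ∀ b : B, τ * rrep A b = rrep A (φ b : A) * τ := by
  classical
  have h1 : Nat.card (A ⧸ B) = Nat.card (A ⧸ B') := by
    have e1 := Subgroup.card_eq_card_quotient_mul_card_subgroup B
    have e2 := Subgroup.card_eq_card_quotient_mul_card_subgroup B'
    have e3 : Nat.card B = Nat.card B' := Nat.card_congr φ.toEquiv
    have e4 : 0 < Nat.card B := Nat.card_pos
    rw [e3] at e1 e4
    exact Nat.eq_of_mul_eq_mul_right e4 (e1.symm.trans e2)
  obtain ⟨σ⟩ : Nonempty ((A ⧸ B) ≃ (A ⧸ B')) := Finite.card_eq.1 h1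
  obtain ⟨e, he⟩ := exists_coset_equiv B
  obtain ⟨e', he'⟩ := exists_coset_equiv B'
  let τ : Equiv.Perm A := e.symm.trans ((σ.prodCongr φ.toEquiv).trans e')
  have hτ : ∀ (q : A ⧸ B) (b : B), τ (q.out * (b : A)) = (σ q).out * ((φ b : B') : A) := by
    intro q b
    rw [← he]
    show e' ((σ.prodCongr φ.toEquiv) (e.symm (e (q, b)))) = _
    rw [Equiv.symm_apply_apply]
    exact he' _ _
  refine ⟨τ, fun b => ?_⟩
  ext x
  obtain ⟨⟨q, c⟩, rfl⟩ := e.surjective x
  rw [he]
  show τ (rrep A b (q.out * (c : A))) = rrep A (φ b : A) (τ (q.out * (c : A)))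
  rw [rrep_apply, rrep_apply, hτ]
  have h2 : q.out * (c : A) * (b : A)⁻¹ = q.out * ((c * b⁻¹ : B) : A) := by
    rw [Subgroup.coe_mul, Subgroup.coe_inv, mul_assoc]
  rw [h2, hτ, map_mul, map_inv, Subgroup.coe_mul, Subgroup.coe_inv, mul_assoc]

/-- **HNN extensions of finite groups.** -/
theorem hn_finite (hC : Inherits C) (hE : Extension C) (A : Type) [Group A] (hA : Finite A) :
    HN C A := by
  intro B B' φ
  obtain ⟨τ, hτ⟩ := exists_perm B B' φ
  let f : HNNExtension A B B' φ →* Equiv.Perm A := HNNExtension.lift (rrep A) τ hτ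
  have hf : ∀ a : A, f (HNNExtension.of a) = rrep A a := fun a => HNNExtension.lift_of _ _ _ _
  refine hnn_edge_mem φ hC hE (hC.fin A hA) (Q := Equiv.Perm A) (hC.fin _ inferInstance) f ?_
  intro a ha
  rw [hf] at ha
  have h1 := congrArg (fun g : Equiv.Perm A => g 1) ha
  have h2 : (1 : A) * (a : A)⁻¹ = 1 := h1
  rw [one_mul, inv_eq_one] at h2
  exact h2

section nil

variable {A : Type} [Group A] {B B' : Subgroup A} (φ : B ≃* B')

/-- the exponent sum of the stable letter -/
def tsum : HNNExtension A B B' φ →* Multiplicative ℤ :=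
  HNNExtension.lift 1 (Multiplicative.ofAdd 1) (fun a => by simp)

theorem tsum_of (a : A) : tsum φ (HNNExtension.of a) = 1 := HNNExtension.lift_of _ _ _ _

theorem tsum_t : tsum φ HNNExtension.t = Multiplicative.ofAdd 1 := HNNExtension.lift_t _ _ _

/-- the height of a vertex -/
theorem tsum_eq {g h : HNNExtension A B B' φ} (e : (g : Vx φ) = (h : Vx φ)) :
    tsum φ g = tsum φ h := by
  rw [QuotientGroup.eq] at e
  obtain ⟨b, hb⟩ := e
  have h1 := congrArg (tsum φ) hb
  rw [tsum_of, map_mul, map_inv] at h1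
  exact (inv_mul_eq_one.1 h1.symm)

theorem bst_noInv : NoInv (bst φ) (⊤ : Subgroup (HNNExtension A B B' φ)) := by
  have key : ∀ n g : HNNExtension A B B' φ,
      n • (g : Vx φ) = ((g * HNNExtension.t : HNNExtension A B B' φ) : Vx φ) →
      n • ((g * HNNExtension.t : HNNExtension A B B' φ) : Vx φ) = (g : Vx φ) → False := by
    intro n g h1 h2
    have e1 := tsum_eq φ (g := n * g) (h := g * HNNExtension.t) h1
    have e2 := tsum_eq φ (g := n * (g * HNNExtension.t)) (h := g) h2
    rw [map_mul, map_mul, tsum_t] at e1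
    rw [map_mul, map_mul, tsum_t] at e2
    have f1 := congrArg Multiplicative.toAdd e1
    have f2 := congrArg Multiplicative.toAdd e2
    simp only [toAdd_mul, toAdd_ofAdd] at f1 f2
    omega
  rintro n - u v ⟨g, ⟨rfl, rfl⟩ | ⟨rfl, rfl⟩⟩ h1 h2
  · exact key n g h1 h2
  · exact key n g h2 h1

/-- the vertex stabilisers of the Bass-Serre tree are isomorphic to the base group -/
theorem exists_stab_equiv (v : Vx φ) :
    Nonempty (A ≃* MulAction.stabilizer (HNNExtension A B B' φ) v) := by
  induction v using QuotientGroup.induction_on with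
  | H g =>
    let ψ : A →* MulAction.stabilizer (HNNExtension A B B' φ) (g : Vx φ) :=
      { toFun := fun a => ⟨g * HNNExtension.of a * g⁻¹, by
          rw [MulAction.mem_stabilizer_iff]
          show ((g * HNNExtension.of a * g⁻¹ * g : HNNExtension A B B' φ) : Vx φ) = (g : Vx φ)
          rw [inv_mul_cancel_right, mk_mul_of]⟩
        map_one' := Subtype.ext (by simp)
        map_mul' := fun a b => Subtype.ext (by simp) }
    refine ⟨MulEquiv.ofBijective ψ ⟨?_, ?_⟩⟩
    · intro a b h
      have h1 : g * HNNExtension.of a * g⁻¹ = g * HNNExtension.of b * g⁻¹ := congrArg Subtype.val h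
      exact HNNExtension.of_injective _ (mul_left_cancel (mul_right_cancel h1))
    · rintro ⟨n, hn⟩
      obtain ⟨a, ha⟩ := stab_conj φ n g hn
      refine ⟨a, Subtype.ext ?_⟩
      show g * HNNExtension.of a * g⁻¹ = n
      rw [ha]
      group

end nil

/-- the statement on trees which is used for the kernel theorem -/
def TreeNil (C : (G : Type) → [Group G] → Prop) : Prop :=
  ∀ (K V : Type) [Group K] [MulAction K V] (X : SimpleGraph V), OnTree K X →
    NoInv X (⊤ : Subgroup K) → (∀ v : V, Group.FG (MulAction.stabilizer K v) ∧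
      Group.IsNilpotent (MulAction.stabilizer K v)) → C K

/-- **HNN extensions of nilpotent groups.** -/
theorem hn_nilpotent (hT : TreeNil C) (A : Type) [Group A] (hA : Group.FG A)
    (hN : Group.IsNilpotent A) : HN C A := by
  intro B B' φ
  refine hT _ _ (bst φ) (bst_onTree φ) (bst_noInv φ) ?_
  intro v
  obtain ⟨e⟩ := exists_stab_equiv φ v
  refine ⟨Group.fg_of_surjective (f := e.toMonoidHom) e.surjective, ?_⟩
  exact Group.nilpotent_of_mulEquiv e

end Pool.Agent.H38.GN
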