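import Pool.Agent.H38.GN.Semi

/-!
# Extensions with a kernel whose finitely generated subgroups have all their HNN extensions in the class

`HN C A`: all HNN extensions of `A` are in the class. `ext_ker`: if `p : G → Q` is surjective, `Q` is in the class and
`HN C A` for all finitely generated groups `A` which embed in the kernel of `p`, then `G` is in the class.
-/

set_option autoImplicit false

namespace Pool.Agent.H38.GN

open Pool.Agent.H98.FJ

variable {C : (G : Type) → [Group G] → Prop}

/-- all HNN extensions of `A` are in the class -/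
def HN (C : (G : Type) → [Group G] → Prop) (A : Type) [Group A] : Prop :=
  ∀ (B B' : Subgroup A) (φ : B ≃* B'), C (HNNExtension A B B' φ)

theorem HN.mem (hC : Inherits C) {A : Type} [Group A] (h : HN C A) : C A :=
  hC.of_injective (HNNExtension.of (A := (⊥ : Subgroup A)) (B := (⊥ : Subgroup A))
    (φ := MulEquiv.refl _)) (HNNExtension.of_injective _) (h ⊥ ⊥ (MulEquiv.refl _))

/-- a group all of whose finitely generated subgroups are in the class -/
theorem fg_union (hC : Inherits C) {N : Type} [Group N] (h : ∀ A : Subgroup N, A.FG → C A) :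
    C N := by
  have : IsDirectedOrder (Ix N) := ⟨ix_directed⟩
  refine hC.union (ι := Ix N) (fun A => A.1) (fun A B h => h) ?_ (fun A => h A.1 A.2)
  intro g
  obtain ⟨A, hA, -⟩ := ix_two g g
  exact ⟨A, hA⟩

/-- the preimage of a cyclic group -/
theorem cyc_mem (hC : Inherits C) {K P : Type} [Group K] [Group P] (f : K →* P) (v : P)
    (hv : ∀ x, f x ∈ Subgroup.zpowers v)
    (hH : ∀ A : Subgroup f.ker, A.FG → HN C A) : C K := by
  have hle : f.range ≤ Subgroup.zpowers v := by
    rintro _ ⟨x, rfl⟩
    exact hv x
  by_cases hfin : Finite f.range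
  · exact hC.index K f.ker (Subgroup.finiteIndex_ker f)
      (fg_union hC fun A hA => (hH A hA).mem hC)
  · -- the image is infinite cyclic
    obtain ⟨w, hw⟩ : ∃ w : P, f.range = Subgroup.zpowers w := by
      have hcyc : IsCyclic f.range := by
        have h1 : IsCyclic (f.range.subgroupOf (Subgroup.zpowers v)) := inferInstance
        exact isCyclic_of_surjective (Subgroup.subgroupOfEquivOfLe hle)
          (Subgroup.subgroupOfEquivOfLe hle).surjective
      obtain ⟨g, hg⟩ := hcyc
      refine ⟨g.1, le_antisymm ?_ ?_⟩
      · intro x hx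
        obtain ⟨k, hk⟩ := Subgroup.mem_zpowers_iff.1 (hg ⟨x, hx⟩)
        refine Subgroup.mem_zpowers_iff.2 ⟨k, ?_⟩
        exact congrArg Subtype.val hk
      · rw [Subgroup.zpowers_le]
        exact g.2
    have hwr : w ∈ f.range := by
      rw [hw]
      exact Subgroup.mem_zpowers w
    obtain ⟨t, ht⟩ := hwr
    have hinf : ¬ IsOfFinOrder w := by
      intro h
      apply hfin
      rw [hw]
      exact Set.Finite.to_subtype (finite_zpowers.mpr h)
    have hinj := injective_zpow_iff_not_isOfFinOrder.mpr hinf
    let θ : Multiplicative ℤ →* MulAut f.ker := (MulAut.conjNormal (H := f.ker)).comp (zpowersHom K t)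
    have hθ : ∀ (k : Multiplicative ℤ) (n : f.ker), ((θ k n : f.ker) : K) =
        zpowersHom K t k * n * (zpowersHom K t k)⁻¹ := by
      intro k n
      exact MulAut.conjNormal_apply _ _
    let F : f.ker ⋊[θ] Multiplicative ℤ →* K :=
      SemidirectProduct.lift f.ker.subtype (zpowersHom K t) (by
        intro k
        ext n
        exact hθ k n)
    have hF : ∀ x, F x = (x.left : K) * t ^ (Multiplicative.toAdd x.right) := by
      intro x
      rfl
    have hFi : Function.Injective F := by
      rw [injective_iff_map_eq_one]
      intro x hx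
      rw [hF] at hx
      have h1 : f ((x.left : K) * t ^ (Multiplicative.toAdd x.right)) = 1 := by
        rw [hx, map_one]
      have h0 : f (x.left : K) = 1 := x.left.2
      rw [map_mul, h0, one_mul, map_zpow, ht] at h1
      have h2 : Multiplicative.toAdd x.right = 0 := by
        apply hinj
        show w ^ (Multiplicative.toAdd x.right) = w ^ (0 : ℤ)
        rw [h1, zpow_zero]
      rw [h2, zpow_zero, mul_one] at hx
      apply SemidirectProduct.ext
      · exact Subtype.ext hx
      · exact Multiplicative.toAdd.injective h2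
    have hFs : Function.Surjective F := by
      intro y
      have h1 : f y ∈ Subgroup.zpowers w := by
        rw [← hw]
        exact ⟨y, rfl⟩
      obtain ⟨k, hk⟩ := Subgroup.mem_zpowers_iff.1 h1
      have h2 : y * (t ^ k)⁻¹ ∈ f.ker := by
        rw [MonoidHom.mem_ker, map_mul, map_inv, map_zpow, ht, hk, mul_inv_cancel]
      refine ⟨⟨⟨_, h2⟩, Multiplicative.ofAdd k⟩, ?_⟩
      rw [hF]
      exact inv_mul_cancel_right y (t ^ k)
    refine hC.iso (f.ker ⋊[θ] Multiplicative ℤ) K (MulEquiv.ofBijective F ⟨hFi, hFs⟩) ?_
    exact semi_mem θ hC (fun A hA => hH A hA)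

/-- **Extensions.** -/
theorem ext_ker (hC : Inherits C) (hE : Extension C) {G Q : Type} [Group G] [Group Q]
    (p : G →* Q) (hp : Function.Surjective p) (hQ : C Q)
    (hH : ∀ (A : Type) [Group A] (i : A →* G), Function.Injective i → (∀ a, p (i a) = 1) →
      Group.FG A → HN C A) : C G := by
  refine hE G Q p hp hQ ?_
  rintro V ⟨v, hv⟩
  -- the preimage of the cyclic group generated by `v`
  let q : V.comap p →* V := p.subgroupComap V
  have hq : ∀ x : V.comap p, ((q x : V) : Q) = p x.1 := fun x => rfl
  let W : Subgroup (V.comap p) := (Subgroup.zpowers v).comap q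
  have hqs : Function.Surjective q := by
    intro y
    obtain ⟨x, hx⟩ := hp y.1
    refine ⟨⟨x, ?_⟩, Subtype.ext hx⟩
    rw [Subgroup.mem_comap, hx]
    exact y.2
  have hW : W.FiniteIndex := by
    refine ⟨?_⟩
    rw [Subgroup.index_comap_of_surjective _ hqs]
    exact hv.index_ne_zero
  refine hC.index _ W hW ?_
  let f : W →* V := q.comp W.subtype
  refine cyc_mem hC f v (fun x => x.2) ?_
  intro A hA
  let i : A →* G := ((V.comap p).subtype.comp (W.subtype.comp f.ker.subtype)).comp A.subtype
  have hi : Function.Injective i := by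
    intro x y hxy
    apply Subtype.ext
    apply Subtype.ext
    apply Subtype.ext
    exact Subtype.ext hxy
  refine hH A i hi ?_ ((Group.fg_iff_subgroup_fg A).2 hA)
  intro a
  have h1 : f a.1.1 = 1 := a.1.2
  exact congrArg Subtype.val h1

end Pool.Agent.H38.GN
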