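import Pool.Agent.H98.FJ.P.Col
import Pool.Agent.H98.FJ.P.Ext0
import Mathlib.GroupTheory.HNNExtension

/-!
# Semidirect products with the integers as colimits of HNN extensions

Let `θ` be an action of the infinite cyclic group on a group `N` and `σ = θ 1`. For a subgroup `A` of `N` let `GS σ A` be the
HNN extension of `A` with stable letter `t` and `t a t⁻¹ = σ a` for the elements `a` of `A` with `σ a ∈ A`. The semidirect
product `N ⋊ ℤ` is the colimit of the groups `GS σ A`, `A` a finitely generated subgroup of `N`.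
-/

set_option autoImplicit false

namespace Pool.Agent.H38.GN

open Pool.Agent.H98.FJ

variable {C : (G : Type) → [Group G] → Prop}

section defs

variable {N : Type} [Group N] (σ : MulAut N)

/-- the elements of `A` which are mapped into `A` -/
def lowS (A : Subgroup N) : Subgroup A where
  carrier := {a | σ a.1 ∈ A}
  one_mem' := by
    show σ ((1 : A) : N) ∈ A
    rw [Subgroup.coe_one, map_one]
    exact A.one_mem
  mul_mem' := by
    intro a b ha hb
    show σ ((a * b : A) : N) ∈ A
    rw [Subgroup.coe_mul, map_mul]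
    exact A.mul_mem ha hb
  inv_mem' := by
    intro a ha
    show σ ((a⁻¹ : A) : N) ∈ A
    rw [Subgroup.coe_inv, map_inv]
    exact A.inv_mem ha

/-- the images of these elements -/
def upS (A : Subgroup N) : Subgroup A := lowS σ⁻¹ A

theorem mem_lowS {A : Subgroup N} {a : A} : a ∈ lowS σ A ↔ σ a.1 ∈ A := Iff.rfl

theorem mem_upS {A : Subgroup N} {a : A} : a ∈ upS σ A ↔ σ⁻¹ a.1 ∈ A := Iff.rfl

/-- the isomorphism between the associated subgroups -/
def shS (A : Subgroup N) : lowS σ A ≃* upS σ A where
  toFun a := ⟨⟨σ a.1.1, a.2⟩, by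
    rw [mem_upS]
    show σ⁻¹ (σ a.1.1) ∈ A
    rw [MulAut.inv_apply_self]
    exact a.1.2⟩
  invFun a := ⟨⟨σ⁻¹ a.1.1, a.2⟩, by
    rw [mem_lowS]
    show σ (σ⁻¹ a.1.1) ∈ A
    rw [MulAut.apply_inv_self]
    exact a.1.2⟩
  left_inv a := by
    apply Subtype.ext
    apply Subtype.ext
    exact MulAut.inv_apply_self N σ a.1.1
  right_inv a := by
    apply Subtype.ext
    apply Subtype.ext
    exact MulAut.apply_inv_self N σ a.1.1
  map_mul' a b := by
    apply Subtype.ext
    apply Subtype.ext
    exact map_mul σ a.1.1 b.1.1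

/-- the HNN extension -/
abbrev GS (A : Subgroup N) : Type := HNNExtension A (lowS σ A) (upS σ A) (shS σ A)

theorem gs_rel (A : Subgroup N) (a : A) (ha : σ a.1 ∈ A) :
    (HNNExtension.t : GS σ A) * HNNExtension.of a =
      HNNExtension.of (⟨σ a.1, ha⟩ : A) * HNNExtension.t :=
  HNNExtension.t_mul_of (⟨a, ha⟩ : lowS σ A)

/-- the structure maps -/
def gsF (A A' : Subgroup N) (h : A ≤ A') : GS σ A →* GS σ A' :=
  HNNExtension.lift (HNNExtension.of.comp (Subgroup.inclusion h)) HNNExtension.t
    (fun a => gs_rel σ A' (Subgroup.inclusion h a.1) (h a.2))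

theorem gsF_of (A A' : Subgroup N) (h : A ≤ A') (a : A) :
    gsF σ A A' h (HNNExtension.of a) = HNNExtension.of (Subgroup.inclusion h a) :=
  HNNExtension.lift_of _ _ _ _

theorem gsF_t (A A' : Subgroup N) (h : A ≤ A') :
    gsF σ A A' h HNNExtension.t = HNNExtension.t :=
  HNNExtension.lift_t _ _ _

end defs

section colim

variable {N : Type} [Group N] (θ : Multiplicative ℤ →* MulAut N)

/-- the generator of the action -/
abbrev gen : MulAut N := θ (Multiplicative.ofAdd 1)

theorem sm_rel (b : N) :
    (SemidirectProduct.inr (Multiplicative.ofAdd 1) : N ⋊[θ] Multiplicative ℤ) *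
      SemidirectProduct.inl b =
      SemidirectProduct.inl (gen θ b) * SemidirectProduct.inr (Multiplicative.ofAdd 1) := by
  have h := SemidirectProduct.inl_aut (φ := θ) (Multiplicative.ofAdd 1) b
  change SemidirectProduct.inl (gen θ b) = _ at h
  rw [h, map_inv, inv_mul_cancel_right]

/-- the maps to the colimit -/
def gsP (A : Subgroup N) : GS (gen θ) A →* N ⋊[θ] Multiplicative ℤ :=
  HNNExtension.lift (SemidirectProduct.inl.comp A.subtype)
    (SemidirectProduct.inr (Multiplicative.ofAdd 1)) (fun a => sm_rel θ a.1.1)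

theorem gsP_of (A : Subgroup N) (a : A) :
    gsP θ A (HNNExtension.of a) = SemidirectProduct.inl a.1 :=
  HNNExtension.lift_of _ _ _ _

theorem gsP_t (A : Subgroup N) :
    gsP θ A HNNExtension.t = SemidirectProduct.inr (Multiplicative.ofAdd 1) :=
  HNNExtension.lift_t _ _ _

/-- the index set -/
abbrev Ix (N : Type) [Group N] : Type := {A : Subgroup N // A.FG}

theorem bot_fg : (⊥ : Subgroup N).FG := ⟨∅, by simp⟩

instance : Nonempty (Ix N) := ⟨⟨⊥, bot_fg⟩⟩

theorem ix_directed (A B : Ix N) : ∃ D : Ix N, A ≤ D ∧ B ≤ D :=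
  ⟨⟨A.1 ⊔ B.1, A.2.sup B.2⟩, Subtype.mk_le_mk.2 le_sup_left, Subtype.mk_le_mk.2 le_sup_right⟩

theorem ix_two (x y : N) : ∃ A : Ix N, x ∈ A.1 ∧ y ∈ A.1 :=
  ⟨⟨Subgroup.closure {x, y}, (Subgroup.fg_iff _).2 ⟨{x, y}, rfl, by simp⟩⟩,
    Subgroup.subset_closure (by simp), Subgroup.subset_closure (by simp)⟩

theorem gsF_id (A : Subgroup N) (h : A ≤ A) (x : GS (gen θ) A) : gsF (gen θ) A A h x = x := by
  have : gsF (gen θ) A A h = MonoidHom.id _ := by
    apply HNNExtension.hom_ext
    · ext b
      exact gsF_of (gen θ) A A h b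
    · exact gsF_t (gen θ) A A h
  rw [this]
  rfl

theorem gsF_comp (A B D : Subgroup N) (h : A ≤ B) (h' : B ≤ D) (h'' : A ≤ D)
    (x : GS (gen θ) A) : gsF (gen θ) B D h' (gsF (gen θ) A B h x) = gsF (gen θ) A D h'' x := by
  have : (gsF (gen θ) B D h').comp (gsF (gen θ) A B h) = gsF (gen θ) A D h'' := by
    apply HNNExtension.hom_ext
    · ext b
      change gsF (gen θ) B D h' (gsF (gen θ) A B h (HNNExtension.of b)) =
        gsF (gen θ) A D h'' (HNNExtension.of b)
      rw [gsF_of, gsF_of, gsF_of]
      rfl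
    · change gsF (gen θ) B D h' (gsF (gen θ) A B h HNNExtension.t) =
        gsF (gen θ) A D h'' HNNExtension.t
      rw [gsF_t, gsF_t, gsF_t]
  exact DFunLike.congr_fun this x

theorem gs_colim : IsColimit (ι := Ix N) (G := fun A => GS (gen θ) A.1)
    (fun A B h => gsF (gen θ) A.1 B.1 h) (fun A => gsP θ A.1) where
  nonempty := ⟨⟨⊥, bot_fg⟩⟩
  directed := ix_directed
  map_id := fun A h x => gsF_id θ A.1 h x
  map_comp := fun A B D h h' h'' x => gsF_comp θ A.1 B.1 D.1 h h' h'' x
  compat := by
    intro A B h x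
    have : (gsP θ B.1).comp (gsF (gen θ) A.1 B.1 h) = gsP θ A.1 := by
      apply HNNExtension.hom_ext
      · refine MonoidHom.ext fun b => ?_
        change gsP θ B.1 (gsF (gen θ) A.1 B.1 h (HNNExtension.of b)) =
          gsP θ A.1 (HNNExtension.of b)
        rw [gsF_of, gsP_of, gsP_of]
        rfl
      · change gsP θ B.1 (gsF (gen θ) A.1 B.1 h HNNExtension.t) = gsP θ A.1 HNNExtension.t
        rw [gsF_t, gsP_t, gsP_t]
    exact DFunLike.congr_fun this x
  surj := by
    intro y
    obtain ⟨A, hy, -⟩ := ix_two y.left y.left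
    refine ⟨A, HNNExtension.of ⟨y.left, hy⟩ * HNNExtension.t ^ (Multiplicative.toAdd y.right), ?_⟩
    rw [map_mul, map_zpow, gsP_of, gsP_t, ← map_zpow, ← ofAdd_zsmul, smul_eq_mul, mul_one,
      ofAdd_toAdd]
    exact SemidirectProduct.inl_left_mul_inr_right y
  ker := by
    obtain ⟨D, hD, δ, h1, h2⟩ := exists_germ (ι := Ix N) (G := fun A => GS (gen θ) A.1) ix_directed
      (fun A B h => gsF (gen θ) A.1 B.1 h) (fun A h x => gsF_id θ A.1 h x)
      (fun A B D h h' h'' x => gsF_comp θ A.1 B.1 D.1 h h' h'' x)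
    -- the images of the stable letter and of the elements of `N` do not depend on the stage
    let o : Ix N := ⟨⊥, bot_fg⟩
    have ho : ∀ A : Ix N, o ≤ A := fun A => (bot_le : (⊥ : Subgroup N) ≤ A.1)
    have ht : ∀ A : Ix N, δ A HNNExtension.t = δ o HNNExtension.t := by
      intro A
      rw [← h1 o A (ho A), gsF_t]
    have hof : ∀ (A B : Ix N) (x : N) (hA : x ∈ A.1) (hB : x ∈ B.1),
        δ A (HNNExtension.of ⟨x, hA⟩) = δ B (HNNExtension.of ⟨x, hB⟩) := by
      intro A B x hA hB
      obtain ⟨E, hAE, hBE⟩ := ix_directed A B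
      rw [← h1 A E hAE, ← h1 B E hBE, gsF_of, gsF_of]
      rfl
    have hex : ∀ x : N, ∃ A : Ix N, x ∈ A.1 := by
      intro x
      obtain ⟨A, hA, -⟩ := ix_two x x
      exact ⟨A, hA⟩
    choose st hst using hex
    let j : N →* D :=
      { toFun := fun x => δ (st x) (HNNExtension.of ⟨x, hst x⟩)
        map_one' := by
          rw [hof (st 1) (st 1) 1 (hst 1) (st 1).1.one_mem]
          have : (⟨1, (st 1).1.one_mem⟩ : (st 1).1) = 1 := rfl
          rw [this, map_one, map_one]
        map_mul' := by
          intro x y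
          obtain ⟨A, hx, hy⟩ := ix_two x y
          rw [hof (st (x * y)) A (x * y) _ (A.1.mul_mem hx hy), hof (st x) A x _ hx,
            hof (st y) A y _ hy, ← map_mul, ← map_mul]
          rfl }
    have hj : ∀ (A : Ix N) (x : N) (hA : x ∈ A.1), δ A (HNNExtension.of ⟨x, hA⟩) = j x :=
      fun A x hA => hof A (st x) x hA (hst x)
    have hrel : ∀ b : N, δ o HNNExtension.t * j b = j (gen θ b) * δ o HNNExtension.t := by
      intro b
      obtain ⟨A, hb, hb'⟩ := ix_two b (gen θ b)
      rw [← hj A b hb, ← hj A (gen θ b) hb', ← ht A, ← map_mul, gs_rel (gen θ) A.1 ⟨b, hb⟩ hb',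
        map_mul]
    have hpow : ∀ (k : Multiplicative ℤ),
        j.comp (θ k).toMonoidHom =
        (MulAut.conj (zpowersHom D (δ o HNNExtension.t) k)).toMonoidHom.comp j := by
      let S : Subgroup (Multiplicative ℤ) :=
        { carrier := {k | ∀ b : N, j (θ k b) =
            zpowersHom D (δ o HNNExtension.t) k * j b *
              (zpowersHom D (δ o HNNExtension.t) k)⁻¹}
          one_mem' := by
            intro b
            rw [map_one, map_one]
            simp
          mul_mem' := by
            intro k l hk hl b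
            rw [map_mul, map_mul, MulAut.mul_apply, hk, hl]
            group
          inv_mem' := by
            intro k hk b
            have h3 := hk (θ k⁻¹ b)
            rw [← MulAut.mul_apply, ← map_mul, mul_inv_cancel, map_one, MulAut.one_apply] at h3
            rw [h3, map_inv (zpowersHom D (δ o HNNExtension.t))]
            simp only [mul_assoc, inv_mul_cancel_left, inv_inv, inv_mul_cancel, mul_one] }
      have hS : ∀ k, k ∈ S := by
        intro k
        have h3 : Multiplicative.ofAdd (1 : ℤ) ∈ S := by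
          intro b
          change j (gen θ b) = (δ o HNNExtension.t) ^ (1 : ℤ) * _ *
            ((δ o HNNExtension.t) ^ (1 : ℤ))⁻¹
          rw [zpow_one, hrel, mul_inv_cancel_right]
        have h4 : k = Multiplicative.ofAdd (1 : ℤ) ^ (Multiplicative.toAdd k) := by
          rw [← ofAdd_zsmul, smul_eq_mul, mul_one, ofAdd_toAdd]
        rw [h4]
        exact S.zpow_mem h3 _
      intro k
      ext b
      exact hS k b
    let P : N ⋊[θ] Multiplicative ℤ →* D := SemidirectProduct.lift j
      (zpowersHom D (δ o HNNExtension.t)) hpow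
    have hP : ∀ A : Ix N, P.comp (gsP θ A.1) = δ A := by
      intro A
      apply HNNExtension.hom_ext
      · refine MonoidHom.ext fun b => ?_
        change P (gsP θ A.1 (HNNExtension.of b)) = δ A (HNNExtension.of b)
        rw [gsP_of, hj A b.1 b.2]
        exact SemidirectProduct.lift_inl _ _ _ _
      · change P (gsP θ A.1 HNNExtension.t) = δ A HNNExtension.t
        rw [gsP_t, ht A]
        refine (SemidirectProduct.lift_inr _ _ _ _).trans ?_
        change (δ o HNNExtension.t) ^ (1 : ℤ) = _
        rw [zpow_one]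
    intro A x hx
    apply h2 A x
    rw [← hP A]
    change P (gsP θ A.1 x) = 1
    rw [hx, map_one]

/-- **Semidirect products with the integers.** -/
theorem semi_mem (hC : Inherits C)
    (hH : ∀ A : Subgroup N, A.FG → ∀ (B B' : Subgroup A) (φ : B ≃* B'), C (HNNExtension A B B' φ)) :
    C (N ⋊[θ] Multiplicative ℤ) :=
  hC.colim (Ix N) (fun A => GS (gen θ) A.1) (fun A B h => gsF (gen θ) A.1 B.1 h)
    (N ⋊[θ] Multiplicative ℤ) (fun A => gsP θ A.1) (gs_colim θ) (fun A => hH A.1 A.2 _ _ _)

end colim

end Pool.Agent.H38.GN
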