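import Pool.Agent.H38.GN.Fin

/-!
# Extensions with locally nilpotent and locally finite kernels
-/

set_option autoImplicit false

namespace Pool.Agent.H38.GN

open Pool.Agent.H98.FJ Pool.Agent.H93.TR Pool.Agent.H54.IX

variable {C : (G : Type) → [Group G] → Prop}

/-- locally nilpotent or locally finite groups -/
def LNF (N : Type) [Group N] : Prop :=
  (∀ A : Subgroup N, A.FG → Group.IsNilpotent A) ∨ ∀ A : Subgroup N, A.FG → Finite A

/-- a finitely generated subgroup of an image is the image of a finitely generated subgroup -/
theorem exists_fg_lift {N M : Type} [Group N] [Group M] (f : N →* M) (hf : Function.Surjective f)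
    (A : Subgroup M) (hA : A.FG) : ∃ B : Subgroup N, B.FG ∧ B.map f = A := by
  obtain ⟨s, hs⟩ := hA
  choose g hg using hf
  refine ⟨Subgroup.closure (g '' (s : Set M)), ?_, ?_⟩
  · exact (Subgroup.fg_iff _).2 ⟨_, rfl, s.finite_toSet.image g⟩
  · rw [MonoidHom.map_closure, Set.image_image, ← hs]
    congr 1
    ext x
    constructor
    · rintro ⟨y, hy, rfl⟩
      show f (g y) ∈ _
      rw [hg]
      exact hy
    · intro hx
      exact ⟨x, hx, hg x⟩

theorem LNF.of_surjective {N M : Type} [Group N] [Group M] (h : LNF N) (f : N →* M)
    (hf : Function.Surjective f) : LNF M := by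
  have key : ∀ A : Subgroup M, A.FG → ∃ B : Subgroup N, B.FG ∧
      ∃ g : B →* A, Function.Surjective g := by
    intro A hA
    obtain ⟨B, hB, rfl⟩ := exists_fg_lift f hf A hA
    exact ⟨B, hB, f.subgroupMap B, f.subgroupMap_surjective B⟩
  rcases h with h | h
  · left
    intro A hA
    obtain ⟨B, hB, g, hg⟩ := key A hA
    have := h B hB
    exact Group.nilpotent_of_surjective g hg
  · right
    intro A hA
    obtain ⟨B, hB, g, hg⟩ := key A hA
    have := h B hB
    exact Finite.of_surjective g hg

/-- **Extensions with locally nilpotent or locally finite kernels.** -/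
theorem ext_lnf (hC : Inherits C) (hE : Extension C) (hT : TreeNil C) {G Q : Type} [Group G]
    [Group Q] (p : G →* Q) (hp : Function.Surjective p) (hQ : C Q) (hN : LNF p.ker) : C G := by
  refine ext_ker hC hE p hp hQ ?_
  intro A _ i hi hik hA
  -- the group `A` is isomorphic to a finitely generated subgroup of the kernel
  let j : A →* p.ker := i.codRestrict p.ker (fun a => hik a)
  have hj : Function.Injective j := by
    intro x y hxy
    exact hi (congrArg Subtype.val hxy)
  have hfg : j.range.FG := by
    rw [← Group.fg_iff_subgroup_fg]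
    exact Group.fg_of_surjective (f := j.rangeRestrict) j.rangeRestrict_surjective
  let e : j.range ≃* A := (MonoidHom.ofInjective hj).symm
  rcases hN with h | h
  · have := h j.range hfg
    exact hn_nilpotent hT A hA (Group.nilpotent_of_mulEquiv e)
  · have := h j.range hfg
    exact hn_finite hC hE A (Finite.of_equiv _ e.toEquiv)

/-- **Kernels with a finite series whose factors are locally nilpotent or locally finite.** -/
theorem ext_series (hC : Inherits C) (hE : Extension C) (hT : TreeNil C) {G Q : Type} [Group G]
    [Group Q] (p : G →* Q) (hQ : C Q) (k : ℕ) (N : ℕ → Subgroup G) (hN : ∀ i, (N i).Normal)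
    (h0 : N 0 = ⊥) (hk : N k = p.ker) (hmono : ∀ i < k, N i ≤ N (i + 1))
    (hL : ∀ i < k, LNF (N (i + 1) ⧸ (N i).subgroupOf (N (i + 1)))) : C G := by
  have key : ∀ i, i ≤ k → C (G ⧸ N (k - i)) := by
    intro i
    induction i with
    | zero =>
      intro _
      rw [Nat.sub_zero]
      have h1 : C (G ⧸ p.ker) := hC.of_injective (QuotientGroup.kerLift p)
        (QuotientGroup.kerLift_injective p) hQ
      exact hC.iso _ _ (QuotientGroup.quotientMulEquivOfEq hk.symm) h1
    | succ i ih =>
      intro hi
      have h1 := ih (by omega)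
      have e1 : k - i = (k - (i + 1)) + 1 := by omega
      set m := k - (i + 1) with hm
      have hmk : m < k := by omega
      rw [e1] at h1
      have hle := hmono m hmk
      let q : G ⧸ N m →* G ⧸ N (m + 1) :=
        QuotientGroup.map (N m) (N (m + 1)) (MonoidHom.id G) hle
      have hq : ∀ g : G, q (g : G ⧸ N m) = (g : G ⧸ N (m + 1)) := fun g => rfl
      refine ext_lnf hC hE hT q ?_ h1 ?_
      · intro y
        obtain ⟨g, rfl⟩ := QuotientGroup.mk_surjective y
        exact ⟨g, rfl⟩
      · -- the kernel is a quotient of the factor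
        let f : N (m + 1) →* q.ker := (((QuotientGroup.mk' (N m)).comp (N (m + 1)).subtype)).codRestrict
          q.ker (fun x => by
            show q ((x : G) : G ⧸ N m) = 1
            rw [hq]
            exact (QuotientGroup.eq_one_iff (x : G)).2 x.2)
        have hf : (N m).subgroupOf (N (m + 1)) ≤ f.ker := by
          intro x hx
          rw [MonoidHom.mem_ker]
          apply Subtype.ext
          exact (QuotientGroup.eq_one_iff (x : G)).2 hx
        refine (hL m hmk).of_surjective (QuotientGroup.lift _ f hf) ?_
        rintro ⟨y, hy⟩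
        obtain ⟨g, rfl⟩ := QuotientGroup.mk_surjective y
        have hg : g ∈ N (m + 1) := by
          rw [← QuotientGroup.eq_one_iff]
          exact hy
        exact ⟨((⟨g, hg⟩ : N (m + 1)) : N (m + 1) ⧸ (N m).subgroupOf (N (m + 1))), rfl⟩
  have h1 := key k le_rfl
  rw [Nat.sub_self] at h1
  have h2 : Function.Injective (QuotientGroup.mk' (N 0)) := by
    rw [← MonoidHom.ker_eq_bot_iff, QuotientGroup.ker_mk', h0]
  exact hC.of_injective (QuotientGroup.mk' (N 0)) h2 h1

end Pool.Agent.H38.GN
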