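import Pool.Agent.H50.GS.Main
import Pool.Agent.H38.GN.Adapt

/-!
# The kernel theorem with tame, locally virtually polycyclic factors

`tk_ext`: extensions with tame, locally virtually polycyclic kernels (the semidirect products with the infinite cyclic group act
on a line). `radical_tame`: the transfinite form.
-/

set_option autoImplicit false

namespace Pool.Agent.H38.GN

open Pool.Agent.H98.FJ Pool.Agent.H93.TR Pool.Agent.H54.GC Pool.Agent.H76.GT Pool.Agent.H63.RK

/-- the line -/
def Ln : SimpleGraph ℤ where
  Adj a b := b = a + 1 ∨ a = b + 1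
  symm := ⟨fun _ _ h => h.symm⟩
  loopless := ⟨fun a h => by omega⟩

theorem ln_tree : Ln.IsTree := by
  refine ⟨?_, ?_⟩
  · have h : ∀ (n : ℕ) (a : ℤ), Ln.Reachable a (a + n) := by
      intro n a
      induction n with
      | zero =>
        rw [Nat.cast_zero, add_zero]
      | succ n ih =>
        refine ih.trans (SimpleGraph.Adj.reachable ?_)
        left
        push_cast
        ring
    refine ⟨fun a b => ?_⟩
    rcases le_total a b with hab | hab
    · obtain ⟨n, rfl⟩ := Int.le.dest hab
      exact h n a
    · obtain ⟨n, rfl⟩ := Int.le.dest hab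
      exact (h n b).symm
  · refine Pool.Agent.H38.AP.acyclic_of_rank (fun a : ℤ => a.natAbs) ?_
    intro s t t' h1 h2 h3 h4
    change t = s + 1 ∨ s = t + 1 at h1
    change t' = s + 1 ∨ s = t' + 1 at h2
    change t.natAbs ≤ s.natAbs at h3
    change t'.natAbs ≤ s.natAbs at h4
    omega

/-- the action on the line -/
@[implicit_reducible]
def lnAct {E : Type} [Group E] (χ : E →* Multiplicative ℤ) : MulAction E ℤ where
  smul g n := Multiplicative.toAdd (χ g) + n
  one_smul n := by
    show Multiplicative.toAdd (χ 1) + n = n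
    rw [map_one, toAdd_one, zero_add]
  mul_smul g h n := by
    show Multiplicative.toAdd (χ (g * h)) + n = Multiplicative.toAdd (χ g) + (Multiplicative.toAdd (χ h) + n)
    rw [map_mul, toAdd_mul, add_assoc]

variable {C : (G : Type) → [Group G] → Prop}

private theorem vpn_iff (n : ℕ) : ∀ (G : Type) [Group G], Pool.Agent.H50.GS.VPn n G ↔ Pool.Agent.H75.CX.VPn n G := by
  induction n with
  | zero => exact fun G _ => Iff.rfl
  | succ n ih =>
    intro G _
    constructor
    · rintro ⟨N, hN, h1, h2⟩
      exact ⟨N, hN, (ih N).1 h1, h2⟩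
    · rintro ⟨N, hN, h1, h2⟩
      exact ⟨N, hN, (ih N).2 h1, h2⟩

theorem lvp_sub {A B : Type} [Group A] [Group B] (f : A →* B) (hf : Function.Injective f)
    (h : Pool.Agent.H50.GS.LVP B) : Pool.Agent.H50.GS.LVP A := by
  have h1 : Pool.Agent.H18.TN.LVP B := by
    intro H hH
    obtain ⟨n, hn⟩ := h H hH
    exact ⟨n, (vpn_iff n H).1 hn⟩
  intro H hH
  obtain ⟨n, hn⟩ := Pool.Agent.H18.TN.lvp_inj f hf h1 H hH
  exact ⟨n, (vpn_iff n H).2 hn⟩

/-- groups with tame kernels of homomorphisms to the infinite cyclic group -/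
theorem line_mem (hC : Inherits C) (hE : Extension C) (hT : Transfer C)
    (hS : ∀ (G : Type) [Group G], Group.IsSolvable G → C G) {E : Type} [Group E] (χ : E →* Multiplicative ℤ)
    (h1 : Pool.Agent.H50.GS.Tame C χ.ker) (h2 : Pool.Agent.H50.GS.LVP χ.ker) : C E := by
  let _ := lnAct χ
  have hst : ∀ (g : E) (v : ℤ), g • v = v → g ∈ χ.ker := by
    intro g v h
    have h3 : Multiplicative.toAdd (χ g) + v = v := h
    have h4 : Multiplicative.toAdd (χ g) = 0 := by omega
    exact toAdd_eq_zero.1 h4
  refine Pool.Agent.H50.GS.tame_graphs hC hE hT hS (V := ℤ) ln_tree ?_ ?_ ?_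
  · intro g v w h
    have h3 : w = v + 1 ∨ v = w + 1 := h
    show Multiplicative.toAdd (χ g) + w = Multiplicative.toAdd (χ g) + v + 1 ∨
      Multiplicative.toAdd (χ g) + v = Multiplicative.toAdd (χ g) + w + 1
    omega
  · intro v
    exact Pool.Agent.H50.GS.tame_sub (Subgroup.inclusion (fun g hg => hst g v hg)) (Subgroup.inclusion_injective _) h1
  · intro v w _
    exact lvp_sub (Subgroup.inclusion (fun g hg => hst g v hg.1)) (Subgroup.inclusion_injective _) h2

/-- tame groups are in the class -/
theorem tame_mem (hC : Inherits C) (hE : Extension C) (hT : Transfer C)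
    (hS : ∀ (G : Type) [Group G], Group.IsSolvable G → C G) {H : Type} [Group H] (h : Pool.Agent.H50.GS.Tame C H) : C H := by
  let act : MulAction H Unit :=
    { smul := fun _ v => v
      one_smul := fun _ => rfl
      mul_smul := fun _ _ _ => rfl }
  have ht : (⊥ : SimpleGraph Unit).IsTree := by
    refine ⟨⟨fun a b => ?_⟩, SimpleGraph.isAcyclic_bot⟩
    rw [Subsingleton.elim a b]
  refine Pool.Agent.H50.GS.tame_graphs hC hE hT hS (V := Unit) ht ?_ ?_ ?_
  · intro g v w h
    exact h.elim
  · intro v
    exact Pool.Agent.H50.GS.tame_sub (Subgroup.subtype _) Subtype.val_injective h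
  · intro v w h
    exact h.elim

/-- **Extensions with tame, locally virtually polycyclic kernels.** -/
theorem tk_ext (hC : Inherits C) (hE : Extension C) (hT : Transfer C)
    (hS : ∀ (G : Type) [Group G], Group.IsSolvable G → C G) {G Q : Type} [Group G] [Group Q] (p : G →* Q) (hQ : C Q)
    (h1 : Pool.Agent.H50.GS.Tame C p.ker) (h2 : Pool.Agent.H50.GS.LVP p.ker) : C G := by
  refine ext_sd hC hE p hQ (tame_mem hC hE hT hS h1) fun τ => ?_
  let χ : SD τ →* Multiplicative ℤ := SemidirectProduct.rightHom
  let i : χ.ker →* p.ker :=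
    { toFun := fun x => x.1.left
      map_one' := rfl
      map_mul' := fun x y => by
        have hx : x.1.right = 1 := x.2
        show (x.1 * y.1).left = x.1.left * y.1.left
        rw [SemidirectProduct.mul_left, hx, map_one, MulAut.one_apply] }
  have hi : Function.Injective i := by
    intro x y h
    have hx : x.1.right = 1 := x.2
    have hy : y.1.right = 1 := y.2
    exact Subtype.ext (SemidirectProduct.ext h (hx.trans hy.symm))
  exact line_mem hC hE hT hS χ (Pool.Agent.H50.GS.tame_sub i hi h1) (lvp_sub i hi h2)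

end Pool.Agent.H38.GN
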