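import Pool.Agent.H38.GN.TameKer

/-!
# The kernel theorem, transfinite form (compare `H63/RK/Zorn`)
-/

set_option autoImplicit false

namespace Pool.Agent.H38.GN

open Pool.Agent.H98.FJ Pool.Agent.H76.GT Pool.Agent.H63.RK

variable {C : (G : Type) → [Group G] → Prop}

private theorem cyc_mem (hS : ∀ (G : Type) [Group G], Group.IsSolvable G → C G) {G : Type} [Group G] (v : G)
    (h : ∀ x : G, x ∈ Subgroup.zpowers v) : C G := by
  refine hS G (Group.isSolvable_of_comm fun a b => ?_)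
  obtain ⟨m, hm⟩ := Subgroup.mem_zpowers_iff.1 (h a)
  obtain ⟨n, hn⟩ := Subgroup.mem_zpowers_iff.1 (h b)
  rw [← hm, ← hn, ← zpow_add, ← zpow_add, add_comm]

private theorem lf_inj {N N' : Type} [Group N] [Group N'] (f : N →* N')
    (hf : Function.Injective f) (h : LocFin N') : LocFin N := by
  intro L hL
  have h1 : (L.map f).FG := md_fg_map hL f
  have := h _ h1
  exact Finite.of_equiv _ (L.equivMapOfInjective f hf).symm.toEquiv

private theorem ln_inj {N N' : Type} [Group N] [Group N'] (f : N →* N')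
    (hf : Function.Injective f) (h : LocNil N') : LocNil N := by
  intro L hL
  have h1 : (L.map f).FG := md_fg_map hL f
  have := h _ h1
  exact Group.nilpotent_of_mulEquiv (L.equivMapOfInjective f hf).symm

private theorem cyc_pre (hC : Inherits C) {G E R : Type} [Group G] [Group E] [Group R]
    (i : E →* G) (hi : Function.Injective i) (S : Subgroup G) [S.Normal] (q : E →* R)
    (hker : ∀ x, q x = 1 → i x ∈ S) (hS : ∀ v : G, C (S ⊔ Subgroup.zpowers v : Subgroup G))
    (e : E) : C ((Subgroup.zpowers (q e)).comap q) := by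
  have hm : ∀ x : (Subgroup.zpowers (q e)).comap q, i x.1 ∈ S ⊔ Subgroup.zpowers (i e) := by
    rintro ⟨x, hx⟩
    obtain ⟨n, hn⟩ := Subgroup.mem_zpowers_iff.1 (Subgroup.mem_comap.1 hx)
    have h1 : q (x * (e ^ n)⁻¹) = 1 := by
      rw [map_mul, map_inv, map_zpow, hn, mul_inv_cancel]
    have h2 := hker _ h1
    have h3 : i x = i (x * (e ^ n)⁻¹) * (i e) ^ n := by
      rw [← map_zpow, ← map_mul, inv_mul_cancel_right]
    change i x ∈ _
    rw [h3]
    exact Subgroup.mul_mem _ (Subgroup.mem_sup_left h2)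
      (Subgroup.mem_sup_right (Subgroup.zpow_mem _ (Subgroup.mem_zpowers _) n))
  refine hC.of_injective
    ((i.comp ((Subgroup.zpowers (q e)).comap q).subtype).codRestrict
      (S ⊔ Subgroup.zpowers (i e)) hm) ?_ (hS (i e))
  intro a b hab
  apply Subtype.ext
  apply hi
  exact congrArg Subtype.val hab

private theorem chain_mem (hC : Inherits C) {G : Type} [Group G] (c : Set (Subgroup G))
    (hne : c.Nonempty) (hch : IsChain (· ≤ ·) c) (hn : (sSup c).Normal)
    (hc : ∀ S ∈ c, ∀ v : G, C (S ⊔ Subgroup.zpowers v : Subgroup G)) (v : G) :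
    C (sSup c ⊔ Subgroup.zpowers v : Subgroup G) := by
  have hdir : DirectedOn (· ≤ ·) c := hch.directedOn
  have : Nonempty c := hne.to_subtype
  have : IsDirectedOrder c := ⟨fun a b => by
    obtain ⟨x, hx, h1, h2⟩ := hdir a.1 a.2 b.1 b.2
    exact ⟨⟨x, hx⟩, h1, h2⟩⟩
  refine hC.union (ι := c)
    (fun S => (S.1 ⊔ Subgroup.zpowers v).subgroupOf (sSup c ⊔ Subgroup.zpowers v)) ?_ ?_ ?_
  · intro a b hab
    exact Subgroup.subgroupOf_mono _ (sup_le_sup_right hab _)
  · rintro ⟨g, hg⟩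
    obtain ⟨s, hs, t, ht, hst⟩ := Subgroup.mem_sup_of_normal_left.1 hg
    obtain ⟨S, hS, hsS⟩ := (Subgroup.mem_sSup_of_directedOn hne hdir).1 hs
    refine ⟨⟨S, hS⟩, ?_⟩
    rw [Subgroup.mem_subgroupOf]
    change g ∈ _
    rw [← hst]
    exact Subgroup.mul_mem _ (Subgroup.mem_sup_left hsS) (Subgroup.mem_sup_right ht)
  · rintro ⟨S, hS⟩
    have hle : S ⊔ Subgroup.zpowers v ≤ sSup c ⊔ Subgroup.zpowers v :=
      sup_le_sup_right (le_sSup hS) _
    exact hC.of_injective (Subgroup.subgroupOfEquivOfLe hle).toMonoidHom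
      (Subgroup.subgroupOfEquivOfLe hle).injective (hc S hS v)

private theorem step_mem (hC : Inherits C) (hE : Extension C) (hT : Transfer C)
    (hS : ∀ (G : Type) [Group G], Group.IsSolvable G → C G)
    {G : Type} [Group G] (S : Subgroup G) [S.Normal]
    (hSC : ∀ v : G, C (S ⊔ Subgroup.zpowers v : Subgroup G)) (L : Subgroup (G ⧸ S)) [L.Normal]
    (hL : LocNil L ∨ LocFin L ∨ (Pool.Agent.H50.GS.Tame C L ∧ Pool.Agent.H50.GS.LVP L)) (v : G) :
    C (L.comap (QuotientGroup.mk' S) ⊔ Subgroup.zpowers v : Subgroup G) := by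
  obtain ⟨E, hEdef⟩ : ∃ E, E = L.comap (QuotientGroup.mk' S) ⊔ Subgroup.zpowers v := ⟨_, rfl⟩
  rw [← hEdef]
  have hvE : v ∈ E := by
    rw [hEdef]
    exact Subgroup.mem_sup_right (Subgroup.mem_zpowers v)
  let q : E →* G ⧸ S := (QuotientGroup.mk' S).comp E.subtype
  have hR : C q.range := by
    let p : q.range →* (G ⧸ S) ⧸ L := (QuotientGroup.mk' L).comp q.range.subtype
    have hp : C p.range := by
      have hv : p ⟨q ⟨v, hvE⟩, ⟨⟨v, hvE⟩, rfl⟩⟩ ∈ p.range := ⟨_, rfl⟩
      refine cyc_mem hS (⟨_, hv⟩ : p.range) ?_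
      rintro ⟨_, ⟨⟨_, ⟨⟨x, hx⟩, rfl⟩⟩, rfl⟩⟩
      have hx' := hx
      rw [hEdef] at hx'
      obtain ⟨s, hs, t, ht, hst⟩ := Subgroup.mem_sup_of_normal_left.1 hx'
      obtain ⟨n, hn⟩ := Subgroup.mem_zpowers_iff.1 ht
      refine Subgroup.mem_zpowers_iff.2 ⟨n, ?_⟩
      apply Subtype.ext
      change ((QuotientGroup.mk' L) ((QuotientGroup.mk' S) v)) ^ n =
        (QuotientGroup.mk' L) ((QuotientGroup.mk' S) x)
      rw [← hst, ← hn, map_mul, map_mul, map_zpow, map_zpow]
      have h1 : (QuotientGroup.mk' L) ((QuotientGroup.mk' S) s) = 1 :=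
        (QuotientGroup.eq_one_iff _).2 (Subgroup.mem_comap.1 hs)
      rw [h1, one_mul]
    let j : p.rangeRestrict.ker →* L :=
      ((q.range.subtype).comp p.rangeRestrict.ker.subtype).codRestrict L (by
        rintro ⟨r, hr⟩
        rw [MonoidHom.ker_rangeRestrict] at hr
        exact (QuotientGroup.eq_one_iff _).1 hr)
    have hj : Function.Injective j := by
      intro a b hab
      have h1 : (j a).1 = (j b).1 := congrArg Subtype.val hab
      apply Subtype.ext
      apply Subtype.ext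
      exact h1
    rcases hL with hL | hL | ⟨hL, hL'⟩
    · exact ln_ext hC hE (fun G _ h => hS G h) (acyl_of_transfer hC hT) p.rangeRestrict hp (ln_inj j hj hL)
    · exact lf_ext hC hE p.rangeRestrict hp (lf_inj j hj hL)
    · exact tk_ext hC hE hT hS p.rangeRestrict hp (Pool.Agent.H50.GS.tame_sub j hj hL) (lvp_sub j hj hL')
  refine ext_cyc hC hE q.rangeRestrict q.rangeRestrict_surjective hR ?_
  intro w
  obtain ⟨e, rfl⟩ := q.rangeRestrict_surjective w
  refine cyc_pre hC E.subtype E.subtype_injective S q.rangeRestrict ?_ hSC e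
  intro x hx
  have h1 : q x = 1 := congrArg Subtype.val hx
  exact (QuotientGroup.eq_one_iff _).1 h1

/-- **The kernel theorem**: every proper quotient of the kernel has a nontrivial normal subgroup which is locally nilpotent, or locally
finite, or tame and locally virtually polycyclic -/
theorem radical_tame (hC : Inherits C) (hE : Extension C) (hT : Transfer C)
    (hS : ∀ (G : Type) [Group G], Group.IsSolvable G → C G)
    {G : Type} [Group G] (K : Subgroup G) [K.Normal] (hQ : C (G ⧸ K))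
    (hK : ∀ (M : Subgroup G) [M.Normal], M < K → ∃ L : Subgroup (G ⧸ M), L.Normal ∧ L ≠ ⊥ ∧
      L ≤ K.map (QuotientGroup.mk' M) ∧
      (LocNil L ∨ LocFin L ∨ (Pool.Agent.H50.GS.Tame C L ∧ Pool.Agent.H50.GS.LVP L))) : C G := by
  have hbot : (⊥ : Subgroup G) ∈ {S : Subgroup G | S.Normal ∧ S ≤ K ∧
      ∀ v : G, C (S ⊔ Subgroup.zpowers v : Subgroup G)} := by
    refine ⟨inferInstance, bot_le, fun v => ?_⟩
    rw [bot_sup_eq]
    refine cyc_mem hS (⟨v, Subgroup.mem_zpowers v⟩ : Subgroup.zpowers v) ?_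
    rintro ⟨x, hx⟩
    obtain ⟨n, hn⟩ := Subgroup.mem_zpowers_iff.1 hx
    refine Subgroup.mem_zpowers_iff.2 ⟨n, ?_⟩
    apply Subtype.ext
    exact hn
  obtain ⟨S, -, hmax⟩ := zorn_le_nonempty₀ {S : Subgroup G | S.Normal ∧ S ≤ K ∧
      ∀ v : G, C (S ⊔ Subgroup.zpowers v : Subgroup G)} (by
    intro c hc hch y hy
    have hne : c.Nonempty := ⟨y, hy⟩
    have hdir : DirectedOn (· ≤ ·) c := hch.directedOn
    have hn : (sSup c).Normal := by
      refine ⟨fun x hx g => ?_⟩
      obtain ⟨s, hs, hxs⟩ := (Subgroup.mem_sSup_of_directedOn hne hdir).1 hx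
      exact (Subgroup.mem_sSup_of_directedOn hne hdir).2
        ⟨s, hs, (hc hs).1.conj_mem x hxs g⟩
    refine ⟨sSup c, ⟨hn, sSup_le fun s hs => (hc hs).2.1, ?_⟩, fun z hz => le_sSup hz⟩
    exact chain_mem hC c hne hch hn fun s hs => (hc hs).2.2) ⊥ hbot
  obtain ⟨hSn, hSK, hSC⟩ := hmax.prop
  have := hSn
  have hSeq : S = K := by
    by_contra hne
    obtain ⟨L, hLn, hL0, hLK, hL⟩ := hK S (lt_of_le_of_ne hSK hne)
    have := hLn
    have hSS' : S ≤ L.comap (QuotientGroup.mk' S) := by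
      intro x hx
      rw [Subgroup.mem_comap]
      have h1 : (QuotientGroup.mk' S) x = 1 := (QuotientGroup.eq_one_iff _).2 hx
      rw [h1]
      exact L.one_mem
    have hmem : L.comap (QuotientGroup.mk' S) ∈ {S : Subgroup G | S.Normal ∧ S ≤ K ∧
        ∀ v : G, C (S ⊔ Subgroup.zpowers v : Subgroup G)} := by
      refine ⟨inferInstance, ?_, fun v => step_mem hC hE hT hS S hSC L hL v⟩
      intro x hx
      obtain ⟨k, hk, hkx⟩ := Subgroup.mem_map.1 (hLK (Subgroup.mem_comap.1 hx))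
      have h1 : k⁻¹ * x ∈ S := by
        apply (QuotientGroup.eq_one_iff _).1
        change (QuotientGroup.mk' S) (k⁻¹ * x) = 1
        rw [map_mul, map_inv, hkx, inv_mul_cancel]
      have h2 : x = k * (k⁻¹ * x) := by
        rw [mul_inv_cancel_left]
      rw [h2]
      exact K.mul_mem hk (hSK h1)
    have hle := hmax.le_of_ge hmem hSS'
    apply hL0
    rw [eq_bot_iff]
    intro y hy
    obtain ⟨g, rfl⟩ := QuotientGroup.mk'_surjective S y
    have h1 : g ∈ S := hle (Subgroup.mem_comap.2 hy)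
    exact (QuotientGroup.eq_one_iff _).2 h1
  subst hSeq
  refine ext_cyc hC hE (QuotientGroup.mk' S) (QuotientGroup.mk'_surjective S) hQ ?_
  intro w
  obtain ⟨g, rfl⟩ := QuotientGroup.mk'_surjective S w
  exact cyc_pre hC (MonoidHom.id G) (fun a b h => h) S (QuotientGroup.mk' S)
    (fun x hx => (QuotientGroup.eq_one_iff _).1 hx) hSC g

end Pool.Agent.H38.GN
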